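import Pool.Agent.GV.Defs

/-!
# GV: basic lemmas on the products `P`, `O`, `df`, `cc`
-/

namespace Pool.Agent.GV

@[simp] lemma P_zero (x : ℚ) : P x 0 = 1 := by simp [P]

lemma P_one (x : ℚ) : P x 1 = x := by simp [P]

/-- remove the last factor -/
lemma P_succ (x : ℚ) (m : ℕ) : P x (m + 1) = P x m * (x - m) := by
  simp [P, Finset.prod_range_succ]

/-- remove the first factor -/
lemma P_succ' (x : ℚ) (m : ℕ) : P x (m + 1) = x * P (x - 1) m := by
  rw [P, Finset.prod_range_succ', P]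
  simp only [Nat.cast_add, Nat.cast_one, Nat.cast_zero, sub_zero]
  rw [mul_comm]
  congr 1
  apply Finset.prod_congr rfl
  intro t _
  ring

lemma P_add (x : ℚ) (m k : ℕ) : P x (m + k) = P x m * P (x - m) k := by
  induction k with
  | zero => simp
  | succ k ih => rw [← add_assoc, P_succ, ih, P_succ]; push_cast; ring

@[simp] lemma O_zero (x : ℚ) : O x 0 = 1 := by simp [O]

lemma O_one (x : ℚ) : O x 1 = x := by simp [O]

/-- remove the last factor -/
lemma O_succ (x : ℚ) (m : ℕ) : O x (m + 1) = O x m * (x - 2 * m) := by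
  simp [O, Finset.prod_range_succ]

/-- remove the first factor -/
lemma O_succ' (x : ℚ) (m : ℕ) : O x (m + 1) = x * O (x - 2) m := by
  rw [O, Finset.prod_range_succ', O]
  simp only [Nat.cast_add, Nat.cast_one, Nat.cast_zero]
  rw [mul_comm]
  congr 1
  · ring
  · apply Finset.prod_congr rfl
    intro t _
    ring

@[simp] lemma df_zero : df 0 = 1 := by simp [df]

lemma df_succ (r : ℕ) : df (r + 1) = df r * (2 * r + 1) := by
  simp [df, Finset.prod_range_succ]

lemma df_pos (r : ℕ) : 0 < df r := by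
  unfold df
  apply Finset.prod_pos
  intro s _
  positivity

lemma df_ne_zero (r : ℕ) : df r ≠ 0 := (df_pos r).ne'

@[simp] lemma cc_zero (n : ℕ) : cc n 0 = 1 := by simp [cc]

lemma cc_succ (n r : ℕ) :
    cc n (r + 1) = cc n r * (2 * ((r : ℚ) + 1) * (2 * ((r : ℚ) + 1) + 2 * n - 1)) := by
  simp [cc, Finset.prod_range_succ]

/-- `cc n (r+1) = cc (n+1) r * 2 (r+1) (2n+1)` -/
lemma cc_shift (n r : ℕ) :
    cc n (r + 1) = cc (n + 1) r * (2 * ((r : ℚ) + 1) * (2 * n + 1)) := by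
  induction r with
  | zero => simp [cc_succ]; ring
  | succ r ih =>
    rw [cc_succ, ih, cc_succ]
    push_cast
    ring

lemma cc_pos (n r : ℕ) : 0 < cc n r := by
  unfold cc
  apply Finset.prod_pos
  intro s _
  have : (0 : ℚ) ≤ n := by positivity
  have hs : (0 : ℚ) ≤ s := by positivity
  apply mul_pos
  · positivity
  · nlinarith

lemma cc_ne_zero (n r : ℕ) : cc n r ≠ 0 := (cc_pos n r).ne'

/-- a falling product of a rational number `x` larger than `m - 1` is positive -/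
lemma P_pos {x : ℚ} {m : ℕ} (h : (m : ℚ) < x + 1) : 0 < P x m := by
  unfold P
  apply Finset.prod_pos
  intro t ht
  have ht' : t + 1 ≤ m := Finset.mem_range.mp ht
  have ht'' : (t : ℚ) + 1 ≤ m := by exact_mod_cast ht'
  linarith

lemma P_ne_zero {x : ℚ} {m : ℕ} (h : (m : ℚ) < x + 1) : P x m ≠ 0 := (P_pos h).ne'

lemma O_pos {x : ℚ} {m : ℕ} (h : 2 * (m : ℚ) < x + 2) : 0 < O x m := by
  unfold O
  apply Finset.prod_pos
  intro t ht
  have ht' : t + 1 ≤ m := Finset.mem_range.mp ht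
  have ht'' : (t : ℚ) + 1 ≤ m := by exact_mod_cast ht'
  linarith

lemma O_ne_zero {x : ℚ} {m : ℕ} (h : 2 * (m : ℚ) < x + 2) : O x m ≠ 0 := (O_pos h).ne'

/-- `O` at an odd integer does not vanish -/
lemma O_odd_ne_zero (z : ℤ) (m : ℕ) : O (2 * (z : ℚ) + 1) m ≠ 0 := by
  unfold O
  rw [Finset.prod_ne_zero_iff]
  intro t _ h
  have h1 : (2 * z + 1 - 2 * (t : ℤ) : ℤ) = 0 := by
    have : ((2 * z + 1 - 2 * (t : ℤ) : ℤ) : ℚ) = 0 := by push_cast; linarith
    exact_mod_cast this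
  omega

lemma bin_zero (x : ℚ) : bin x 0 = 1 := by simp [bin]

/-- Pascal's rule -/
lemma bin_pascal (x : ℚ) (r : ℕ) : bin x (r + 1) = bin (x - 1) r + bin (x - 1) (r + 1) := by
  unfold bin
  rw [P_succ', P_succ, Nat.factorial_succ]
  have h1 : (r.factorial : ℚ) ≠ 0 := by exact_mod_cast r.factorial_ne_zero
  have h2 : ((r : ℚ) + 1) ≠ 0 := by positivity
  push_cast
  field_simp
  ring

@[simp] lemma Lf0_zero (a : ℚ) (n : ℕ) : Lf0 a n 0 = 1 := by simp [Lf0]
@[simp] lemma Lf1_zero (a : ℚ) (n : ℕ) : Lf1 a n 0 = 1 := rfl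
@[simp] lemma Ltf0_zero (a : ℚ) (n : ℕ) : Ltf0 a n 0 = 1 := rfl
@[simp] lemma Ltf1_zero (a : ℚ) (n : ℕ) : Ltf1 a n 0 = 1 := by simp [Ltf1]
@[simp] lemma Uf0_zero (a : ℚ) (n : ℕ) : Uf0 a n 0 = 1 := rfl
@[simp] lemma Uf1_zero (a : ℚ) (n : ℕ) : Uf1 a n 0 = 1 := by simp [Uf1]
@[simp] lemma Utf0_zero (a : ℚ) (n : ℕ) : Utf0 a n 0 = 1 := by simp [Utf0]
@[simp] lemma Utf1_zero (a : ℚ) (n : ℕ) : Utf1 a n 0 = 1 := rfl

@[simp] lemma Lf_zero (e : Bool) (a : ℚ) (n : ℕ) : Lf e a n 0 = 1 := by cases e <;> simp [Lf]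
@[simp] lemma Ltf_zero (e : Bool) (a : ℚ) (n : ℕ) : Ltf e a n 0 = 1 := by cases e <;> simp [Ltf]
@[simp] lemma Uf_zero (e : Bool) (a : ℚ) (n : ℕ) : Uf e a n 0 = 1 := by cases e <;> simp [Uf]
@[simp] lemma Utf_zero (e : Bool) (a : ℚ) (n : ℕ) : Utf e a n 0 = 1 := by cases e <;> simp [Utf]

/-- `C(N, K+2) (K+1)(K+2) = C(N, K) (N-K)(N-K-1)` in `ℚ`, for all `N`, `K` -/
lemma choose_two (N K : ℕ) :
    (N.choose (K + 2) : ℚ) * ((K + 1) * (K + 2)) = N.choose K * ((N - K) * (N - K - 1)) := by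
  have h1 : (N.choose (K + 1) : ℚ) * (K + 1) = N.choose K * (N - K) := by
    rcases le_or_gt K N with h | h
    · have := Nat.choose_succ_right_eq N K
      have h2 : ((N - K : ℕ) : ℚ) = N - K := by push_cast [Nat.cast_sub h]; ring
      rw [← h2]
      exact_mod_cast this
    · rw [Nat.choose_eq_zero_of_lt h, Nat.choose_eq_zero_of_lt (by omega)]; simp
  have h3 : (N.choose (K + 2) : ℚ) * (K + 2) = N.choose (K + 1) * (N - K - 1) := by
    rcases le_or_gt (K + 1) N with h | h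
    · have := Nat.choose_succ_right_eq N (K + 1)
      have h2 : ((N - (K + 1) : ℕ) : ℚ) = N - K - 1 := by push_cast [Nat.cast_sub h]; ring
      have h4 : ((K + 2 : ℕ) : ℚ) = K + 2 := by push_cast; ring
      rw [← h2, ← h4]
      exact_mod_cast this
    · rw [Nat.choose_eq_zero_of_lt h, Nat.choose_eq_zero_of_lt (by omega)]; simp
  calc (N.choose (K + 2) : ℚ) * ((K + 1) * (K + 2))
      = (N.choose (K + 2) : ℚ) * (K + 2) * (K + 1) := by ring
    _ = N.choose (K + 1) * (K + 1) * (N - K - 1) := by rw [h3]; ring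
    _ = _ := by rw [h1]; ring

/-- `C(N+1, K+2) (K+1)(K+2) = C(N, K) (N+1)(N-K)` in `ℚ`, for all `N`, `K` -/
lemma choose_two_one (N K : ℕ) :
    ((N + 1).choose (K + 2) : ℚ) * ((K + 1) * (K + 2)) = N.choose K * ((N + 1) * (N - K)) := by
  have h1 : ((N + 1).choose (K + 1) : ℚ) * (K + 1) = N.choose K * (N + 1) := by
    have := Nat.add_one_mul_choose_eq N K
    have h : ((N : ℚ) + 1) * N.choose K = (N + 1).choose (K + 1) * (K + 1) := by
      exact_mod_cast this
    linarith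
  have h3 : ((N + 1).choose (K + 2) : ℚ) * (K + 2) = (N + 1).choose (K + 1) * (N - K) := by
    rcases le_or_gt K N with h | h
    · have := Nat.choose_succ_right_eq (N + 1) (K + 1)
      have h2 : ((N + 1 - (K + 1) : ℕ) : ℚ) = N - K := by
        rw [Nat.add_sub_add_right]; push_cast [Nat.cast_sub h]; ring
      have h4 : ((K + 2 : ℕ) : ℚ) = K + 2 := by push_cast; ring
      rw [← h2, ← h4]
      exact_mod_cast this
    · rw [Nat.choose_eq_zero_of_lt (show N + 1 < K + 2 by omega),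
        Nat.choose_eq_zero_of_lt (show N + 1 < K + 1 by omega)]; simp
  calc ((N + 1).choose (K + 2) : ℚ) * ((K + 1) * (K + 2))
      = ((N + 1).choose (K + 2) : ℚ) * (K + 2) * (K + 1) := by ring
    _ = (N + 1).choose (K + 1) * (K + 1) * (N - K) := by rw [h3]; ring
    _ = _ := by rw [h1]; ring

/-- `C(N+2, K+2) (K+1)(K+2) = C(N, K) (N+1)(N+2)` in `ℚ`, for all `N`, `K` -/
lemma choose_two_two (N K : ℕ) :
    ((N + 2).choose (K + 2) : ℚ) * ((K + 1) * (K + 2)) = N.choose K * ((N + 1) * (N + 2)) := by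
  have h1 : ((N + 1).choose (K + 1) : ℚ) * (K + 1) = N.choose K * (N + 1) := by
    have := Nat.add_one_mul_choose_eq N K
    have h : ((N : ℚ) + 1) * N.choose K = (N + 1).choose (K + 1) * (K + 1) := by
      exact_mod_cast this
    linarith
  have h3 : ((N + 2).choose (K + 2) : ℚ) * (K + 2) = (N + 1).choose (K + 1) * (N + 2) := by
    have := Nat.add_one_mul_choose_eq (N + 1) (K + 1)
    have h : ((N : ℚ) + 1 + 1) * (N + 1).choose (K + 1) =
        (N + 1 + 1).choose (K + 1 + 1) * (K + 1 + 1) := by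
      exact_mod_cast this
    have e1 : (K : ℚ) + 1 + 1 = K + 2 := by ring
    have e2 : (N : ℚ) + 1 + 1 = N + 2 := by ring
    rw [e1, e2] at h
    linarith
  calc ((N + 2).choose (K + 2) : ℚ) * ((K + 1) * (K + 2))
      = ((N + 2).choose (K + 2) : ℚ) * (K + 2) * (K + 1) := by ring
    _ = (N + 1).choose (K + 1) * (K + 1) * (N + 2) := by rw [h3]; ring
    _ = _ := by rw [h1]; ring

end Pool.Agent.GV
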